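import Pool.Agent.Q66.RgC3

set_option autoImplicit false

namespace Pool.Agent.Results.MP_e1010f_an.RigidSynchronyConjecture

open Q66.RigidSynchrony

/-- The rigid synchrony conjecture: every rigid synchrony pattern of a hyperbolic periodic orbit of
an admissible vector field is balanced. The statement covers both readings of admissibility (the
functions of own state and tail states are `C¹`, or only the resulting vector field is `C¹`) and both
readings of the pattern (nodes of different types with state spaces of equal dimension are compared
or not). -/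
theorem result (𝒩 : Network) (k : 𝒩.NT → ℕ) (hk : ∀ i, 0 < k i)
    (Adm : (St 𝒩 k → St 𝒩 k) → Prop) (hAdm : Adm = Admissible ∨ Adm = WeaklyAdmissible)
    (Pat : (ℝ → St 𝒩 k) → Rel 𝒩) (hPat : Pat = Pattern ∨ Pat = TypedPattern)
    (f : St 𝒩 k → St 𝒩 k) (hf : Adm f) (x : ℝ → St 𝒩 k) (T : ℝ)
    (hx : IsPeriodicOrbit f x T) (hh : Hyperbolic f x T)
    (hr : RigidIn Adm Pat f x T) : Balanced (Pat x) := by
  rcases hAdm with rfl | rfl
  · have h := main hk (Admissible.weakly hf) hx hh Admissible
      (fun f' hg => admissible_of_sub hf hg)
    rcases hPat with rfl | rfl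
    · exact h.1 hr
    · exact h.2 hr
  · have h := main hk hf hx hh WeaklyAdmissible
      (fun f' hg => weaklyAdmissible_of_sub hf hg)
    rcases hPat with rfl | rfl
    · exact h.1 hr
    · exact h.2 hr

end Pool.Agent.Results.MP_e1010f_an.RigidSynchronyConjecture
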